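import Pool.Agent.Lib.MP_562567_gt.Q.Main3

/-!
# MP_562567_gt: the sharp bound of the mean curvature in the conformal class of the Euclidean ball

For Riemannian metrics `e^(2s) |dx|²` on the closed unit ball of `ℝⁿ`, `s` smooth, with scalar curvature at least
`n (n - 1)` and hyperspherical radius `R` of the boundary, the supremum of the minimum of
the mean curvature of the boundary is `(n - 1) (1 / R² - 1)^(1/2)` for `R ≤ 1`, and there is no such metric for `R > 1`; for all `R` if
`n ≥ 5`, and for `R² ≤ (n - 2) / 3` if `n = 3, 4`.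
-/

set_option autoImplicit false

namespace Pool.Agent.Results.MP_562567_gt.ConformalBallSharp

open Pool.Agent.MP562567

theorem result (n : ℕ) (R : ℝ) (hR : 0 < R)
    (h : 5 ≤ n ∨ (3 ≤ n ∧ R ^ 2 ≤ ((n : ℝ) - 2) / 3)) :
    PhiConf n R = if R ≤ 1 then (((((n : ℝ) - 1) * Real.sqrt (1 / R ^ 2 - 1) : ℝ)) : EReal)
      else ⊥ :=
  Q.main3 n R hR h

end Pool.Agent.Results.MP_562567_gt.ConformalBallSharp
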